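import Pool.Agent.H395R2.G3.Main

/-!
Lower bounds for the constant in a logarithmic bound for 3x+1 total stopping times: the constant
predicted by the repeated random walk model, with a count of the exceptions.
-/

set_option autoImplicit false

namespace Pool.Agent.Results.MP_a1568a_nt.ConstantSharp

/-- The `3x+1` function. -/
def T (n : ℕ) : ℕ := if n % 2 = 0 then n / 2 else (3 * n + 1) / 2

/-- `k` is the total stopping time of `n`: the least `k ≥ 0` with `T^(k)(n) = 1` (so it is finite). -/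
def IsStoppingTime (n k : ℕ) : Prop := IsLeast {j : ℕ | T^[j] n = 1} k

/-- `g(a) = sup_θ (θ a - log (½ (2^θ + (2/3)^θ)))`. -/
noncomputable def g (a : ℝ) : ℝ :=
  ⨆ θ : ℝ, (θ * a - Real.log ((1 / 2) * ((2 : ℝ) ^ θ + (2 / 3 : ℝ) ^ θ)))

open Pool.Agent.H395R2.G3 in
theorem exceptions {c : ℝ} (hc : 1 / Real.log 2 < c) (hF : 0 < FF (rr c)) {ε : ℝ} (hε : 0 < ε)
    {γ₀ : ℝ} (hcγ : c < γ₀)
    (hld : ∀ α : ℝ, 1 / Real.log 2 < α → α < γ₀ → 0 < 1 - α * rate (1 / α) ∧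
      ∀ ε : ℝ, 0 < ε → ∃ X₀ : ℝ, ∀ x : ℝ, X₀ ≤ x →
        x ^ (1 - α * rate (1 / α) - ε) ≤ ((SetLD α ε x).ncard : ℝ)) :
    ∃ X₀ : ℝ, ∀ x : ℝ, X₀ ≤ x → x ^ (1 - c * g (1 / c) - ε) ≤
      (Set.ncard {n : ℕ | 2 ≤ n ∧ (n : ℝ) ≤ x ∧
        ∃ k : ℕ, IsStoppingTime n k ∧ c * Real.log n < k} : ℝ) := by
  have hl2 : 0 < Real.log 2 := Real.log_pos (by norm_num)
  have hc0 : 0 < c := lt_trans (by positivity) hc
  have hcont : ContinuousAt (fun α : ℝ => α * FF (rr α)) c := by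
    apply ContinuousAt.mul continuousAt_id
    apply FF_cont.continuousAt.comp
    unfold rr
    apply ContinuousAt.div_const
    apply ContinuousAt.sub continuousAt_const
    exact ContinuousAt.div continuousAt_const continuousAt_id hc0.ne'
  have hev := (Metric.continuousAt_iff.1 hcont) (ε / 2) (by positivity)
  obtain ⟨δ, hδ, hδ2⟩ := hev
  set α : ℝ := c + min (δ / 2) ((γ₀ - c) / 2) with hα
  have hm0 : 0 < min (δ / 2) ((γ₀ - c) / 2) := lt_min (by positivity) (by linarith)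
  have hα1 : c < α := by rw [hα]; linarith
  have hα2 : α < γ₀ := by
    have := min_le_right (δ / 2) ((γ₀ - c) / 2)
    rw [hα]; linarith
  have hd : dist α c < δ := by
    have := min_le_left (δ / 2) ((γ₀ - c) / 2)
    rw [Real.dist_eq, hα, add_sub_cancel_left, abs_of_pos hm0]; linarith
  have h1 := hδ2 hd
  rw [Real.dist_eq, ← expo_eq (hc.trans hα1), ← expo_eq hc] at h1
  have h2 := (abs_lt.1 h1).1
  have hε' : 0 < min (ε / 2) ((α - c) / 2) := lt_min (by positivity) (by linarith)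
  obtain ⟨X₀, hX₀⟩ := (hld α (hc.trans hα1) hα2).2 _ hε'
  refine ⟨max X₀ 1, fun x hx => ?_⟩
  have hx1 : 1 ≤ x := (le_max_right _ _).trans hx
  refine (Real.rpow_le_rpow_of_exponent_le hx1 ?_).trans
    ((hX₀ x ((le_max_left _ _).trans hx)).trans ?_)
  · have := min_le_left (ε / 2) ((α - c) / 2)
    change 1 - c * rate (1 / c) - ε ≤ _
    linarith
  · have hfin : {n : ℕ | 2 ≤ n ∧ (n : ℝ) ≤ x ∧
        ∃ k : ℕ, IsStoppingTime n k ∧ c * Real.log n < k}.Finite := by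
      apply (Set.finite_Iic ⌊x⌋₊).subset
      rintro m ⟨_, hm, _⟩
      exact Nat.le_floor hm
    have hsub : SetLD α (min (ε / 2) ((α - c) / 2)) x ⊆ {n : ℕ | 2 ≤ n ∧ (n : ℝ) ≤ x ∧
        ∃ k : ℕ, IsStoppingTime n k ∧ c * Real.log n < k} := by
      rintro n ⟨h3, h4, k, h5, h6⟩
      refine ⟨h3, h4, k, h5, ?_⟩
      have hlog : 0 < Real.log n := Real.log_pos (by exact_mod_cast h3)
      have h7 := (abs_le.1 h6).1
      have h8 := min_le_right (ε / 2) ((α - c) / 2)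
      have h9 : c < (k : ℝ) / Real.log n := by linarith
      rwa [lt_div_iff₀ hlog] at h9
    exact_mod_cast Set.ncard_le_ncard hsub hfin

/-- Let `γ₀ = 41.677...` be the unique real `> (½ log (4/3))⁻¹` with `γ₀ g(1/γ₀) = 1`.
If `σ_∞(n) ≤ c log n` for all large `n` which reach `1`, then `c ≥ γ₀`.  Quantitatively, for every
`c` with `(½ log (4/3))⁻¹ ≤ c < γ₀` and every `ε > 0`, for all large `x` at least
`x^(1 - c g(1/c) - ε)` integers `2 ≤ n ≤ x` have `c log n < σ_∞(n) < ∞`, and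
`1 - c g(1/c) > 0`. -/
theorem result : ∃ γ₀ : ℝ,
    (γ₀ > ((1 / 2) * Real.log (4 / 3))⁻¹ ∧ γ₀ * g (1 / γ₀) = 1 ∧
      ∀ γ : ℝ, γ > ((1 / 2) * Real.log (4 / 3))⁻¹ → γ * g (1 / γ) = 1 → γ = γ₀) ∧
    (41.6776 < γ₀ ∧ γ₀ < 41.6777) ∧
    (∀ (c : ℝ) (N : ℕ), (∀ n k : ℕ, N ≤ n → IsStoppingTime n k → (k : ℝ) ≤ c * Real.log n) →
      γ₀ ≤ c) ∧
    (∀ c : ℝ, ((1 / 2) * Real.log (4 / 3))⁻¹ ≤ c → c < γ₀ → 0 < 1 - c * g (1 / c) ∧
      ∀ ε : ℝ, 0 < ε → ∃ X₀ : ℝ, ∀ x : ℝ, X₀ ≤ x →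
        x ^ (1 - c * g (1 / c) - ε) ≤
          (Set.ncard {n : ℕ | 2 ≤ n ∧ (n : ℝ) ≤ x ∧
            ∃ k : ℕ, IsStoppingTime n k ∧ c * Real.log n < k} : ℝ)) := by
  obtain ⟨γ₀, hnum, hγ, huniq, hlow, hld⟩ := Pool.Agent.H395R2.G3.main_gamma
  refine ⟨γ₀, ⟨hγ.1, hγ.2, huniq⟩, hnum, ?_, ?_⟩
  · intro c N h
    by_contra hcon
    push Not at hcon
    obtain ⟨n, hn, hn2, k, hk1, hk2⟩ := hlow ((γ₀ - c) / 2) (by linarith) N
    have h1 := h n k hn hk1
    have hlog : 0 < Real.log n := Real.log_pos (by exact_mod_cast hn2)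
    have h2 : (γ₀ - (γ₀ - c) / 2) * Real.log n ≤ c * Real.log n := hk2.trans h1
    have h3 := le_of_mul_le_mul_right h2 hlog
    linarith
  · intro c hc hcγ
    have hc' : 1 / Real.log 2 < c := lt_of_lt_of_le Pool.Agent.H395R2.G3.mu_gt hc
    have hpos := (hld c hc' hcγ).1
    refine ⟨hpos, fun ε hε => ?_⟩
    have hF : 0 < Pool.Agent.H395R2.G3.FF (Pool.Agent.H395R2.G3.rr c) := by
      rw [Pool.Agent.H395R2.G3.expo_eq hc'] at hpos
      have hl2 : 0 < Real.log 2 := Real.log_pos (by norm_num)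
      have hc0 : 0 < c := lt_trans (by positivity) hc'
      exact pos_of_mul_pos_right hpos hc0.le
    exact exceptions hc' hF hε hcγ hld

end Pool.Agent.Results.MP_a1568a_nt.ConstantSharp
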