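import Mathlib
import Pool.Agent.H499R2.LT.R6

set_option autoImplicit false

/-! The law of the total stopping time of the `3x+1` function. -/

namespace Pool.Agent.Results.MP_a1568a_nt.NormalLaw

open Filter Topology

/-- the `3x+1` function -/
def T (n : ℕ) : ℕ := if n % 2 = 0 then n / 2 else (3 * n + 1) / 2

/-- `t` is the total stopping time of `n` -/
def IsTotalStoppingTime (n t : ℕ) : Prop := T^[t] n = 1 ∧ ∀ j < t, T^[j] n ≠ 1

/-- the number of odd terms among `n, T n, ..., T^(k-1) n` -/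
def odds (k n : ℕ) : ℕ := ((Finset.range k).filter fun i => T^[i] n % 2 = 1).card

/-- the positive integers with the property `P` have the natural density `δ` -/
def HasDensity (P : ℕ → Prop) (δ : ℝ) : Prop :=
  Tendsto (fun N : ℕ => ({n : ℕ | 1 ≤ n ∧ n ≤ N ∧ P n}.ncard : ℝ) / N) atTop (𝓝 δ)

/-- `2 / log (4/3) * log n + x * log 3 * √(2 log n / (log (4/3))^3)` -/
noncomputable def bound (x : ℝ) (n : ℕ) : ℝ :=
  2 / Real.log (4 / 3) * Real.log n
    + x * (Real.log 3 * Real.sqrt (2 * Real.log n / Real.log (4 / 3) ^ 3))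

/-- The distribution function of the standard normal law. -/
noncomputable def Phi (x : ℝ) : ℝ :=
  ProbabilityTheory.cdf (ProbabilityTheory.gaussianReal 0 1) x

/-- THE LAW OF THE TOTAL STOPPING TIME. The integers with finite total stopping time have a positive
natural density `δ`, equal to `1` iff all are of this kind. For `m ≥ 1` and all `a`, `b`, those with
total stopping time `≡ a` and number of odd terms before reaching `1` `≡ b` modulo `m` have density
`δ / m ^ 2`, and those with, moreover, total stopping time at most `bound x n` have density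
`δ * Phi x / m ^ 2`, for every real `x`. -/
theorem result : ∃ δ : ℝ, 0 < δ ∧ δ ≤ 1 ∧ (δ = 1 ↔ ∀ n : ℕ, 1 ≤ n → ∃ k, T^[k] n = 1) ∧
    HasDensity (fun n => ∃ k, T^[k] n = 1) δ ∧
    ∀ (m : ℕ) (a b : ℤ), 1 ≤ m →
      HasDensity (fun n => ∃ t : ℕ, IsTotalStoppingTime n t ∧
        (t : ℤ) ≡ a [ZMOD m] ∧ (odds t n : ℤ) ≡ b [ZMOD m]) (δ / m ^ 2) ∧
      ∀ x : ℝ, HasDensity (fun n => ∃ t : ℕ, (t : ℝ) ≤ bound x n ∧ IsTotalStoppingTime n t ∧
        (t : ℤ) ≡ a [ZMOD m] ∧ (odds t n : ℤ) ≡ b [ZMOD m]) (δ * Phi x / m ^ 2) :=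
  Pool.Agent.H499R2.LT.law_one

end Pool.Agent.Results.MP_a1568a_nt.NormalLaw
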