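import Pool.Agent.H499R2.NDLln3

set_option autoImplicit false

/-! The total stopping time of almost all integers which reach `1`. -/

namespace Pool.Agent.Results.MP_a1568a_nt.NormalOrder

open Filter Topology

/-- the `3x+1` function -/
def T (n : ℕ) : ℕ := if n % 2 = 0 then n / 2 else (3 * n + 1) / 2

/-- `t` is the total stopping time of `n` -/
def IsTotalStoppingTime (n t : ℕ) : Prop := T^[t] n = 1 ∧ ∀ j < t, T^[j] n ≠ 1

/-- the positive integers with the property `P` have the natural density `δ` -/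
def HasDensity (P : ℕ → Prop) (δ : ℝ) : Prop :=
  Tendsto (fun N : ℕ => ({n : ℕ | 1 ≤ n ∧ n ≤ N ∧ P n}.ncard : ℝ) / N) atTop (𝓝 δ)

/-- NORMAL ORDER OF THE TOTAL STOPPING TIME, in natural density. -/
theorem result : ∃ δ : ℝ, 0 < δ ∧ δ ≤ 1 ∧ (δ = 1 ↔ ∀ n : ℕ, 1 ≤ n → ∃ k, T^[k] n = 1) ∧
    HasDensity (fun n => ∃ k, T^[k] n = 1) δ ∧
    (∀ ε : ℝ, 0 < ε → HasDensity (fun n => ∃ t : ℕ, IsTotalStoppingTime n t ∧
      |(t : ℝ) - 2 / Real.log (4 / 3) * Real.log n| ≤ ε * Real.log n ∧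
      ∀ j ≤ t, |Real.log (T^[j] n : ℕ) - (Real.log n - j / 2 * Real.log (4 / 3))|
        ≤ ε * Real.log n) δ) ∧
    (∀ c : ℝ, 2 / Real.log (4 / 3) < c →
      HasDensity (fun n => ∃ k : ℕ, (k : ℝ) ≤ c * Real.log n ∧ T^[k] n = 1) δ) ∧
    (∀ c : ℝ, c < 2 / Real.log (4 / 3) →
      HasDensity (fun n => ∃ k : ℕ, (k : ℝ) ≤ c * Real.log n ∧ T^[k] n = 1) 0) := by
  obtain ⟨δ, h0, h1, h2, h3⟩ := Pool.Agent.H499R2.ND.Bas_density
  refine ⟨δ, h0, h1, h2, h3, fun ε hε => ?_, fun c hc => ?_, fun c hc => ?_⟩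
  · have h := Pool.Agent.H499R2.ND.bas_profile h3 hε
    refine h.congr fun N => ?_
    show _ = (({n : ℕ | 1 ≤ n ∧ n ≤ N ∧ _}.ncard : ℝ) / N)
    unfold Pool.Agent.H499R2.ND.cnt
    congr 3
    ext n
    constructor
    · rintro ⟨g1, g2, t, g3, g4, g5⟩
      exact ⟨g1, g2, t, ⟨g3, g4⟩, g5⟩
    · rintro ⟨g1, g2, t, ⟨g3, g4⟩, g5⟩
      exact ⟨g1, g2, t, g3, g4, g5⟩
  · exact Pool.Agent.H499R2.ND.bas_time h3 hc
  · exact Pool.Agent.H499R2.ND.bas_time_lower h3 hc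

end Pool.Agent.Results.MP_a1568a_nt.NormalOrder
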